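import Mathlib
import Pool.Agent.H950R3.Final

noncomputable section
open scoped Classical

namespace Pool.Agent.Results.MP_1ce9e9_gt.OpenSet

/-- A geodesic net in the Euclidean plane (identified with the complex numbers): a finite graph
whose vertices are points of the plane and whose edges are straight segments of weight one. -/
structure GeodesicNet where
  /-- the vertices -/
  V : Finset ℂ
  /-- `Adj a b` means that the segment `ab` is an edge -/
  Adj : ℂ → ℂ → Prop
  symm : ∀ a b, Adj a b → Adj b a
  /-- edges join two distinct vertices -/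
  edge_ends : ∀ a b, Adj a b → a ∈ V ∧ b ∈ V ∧ a ≠ b
  /-- two distinct edges meet only at a common endpoint -/
  edges_meet : ∀ a b c d, Adj a b → Adj c d → s(a, b) ≠ s(c, d) →
    ∀ z ∈ segment ℝ a b, z ∈ segment ℝ c d → (z = a ∨ z = b) ∧ (z = c ∨ z = d)
  /-- no vertex lies in the interior of an edge -/
  no_vertex_inside : ∀ a b, Adj a b → ∀ c ∈ V, c ∉ openSegment ℝ a b

namespace GeodesicNet

variable (G : GeodesicNet)

/-- the neighbours of `v` -/
def neighbors (v : ℂ) : Finset ℂ := G.V.filter (fun w => G.Adj v w)

/-- the imbalance vector: the sum of the unit vectors along the edges at `v` -/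
def imb (v : ℂ) : ℂ := ∑ w ∈ G.neighbors v, (w - v) / (‖w - v‖ : ℂ)

/-- balanced vertices have zero imbalance and degree at least three -/
def IsBalanced (v : ℂ) : Prop := G.imb v = 0 ∧ 3 ≤ (G.neighbors v).card

/-- the set of balanced vertices -/
def balancedVertices : Finset ℂ := G.V.filter (fun v => G.IsBalanced v)

/-- the set of unbalanced vertices: all other vertices -/
def unbalancedVertices : Finset ℂ := G.V.filter (fun v => ¬ G.IsBalanced v)

end GeodesicNet

/-- `S` is the exact set of unbalanced vertices of geodesic nets with arbitrarily many balanced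
vertices. -/
def UnboundedlyFillable (S : Finset ℂ) : Prop :=
  ∀ N : ℕ, ∃ G : GeodesicNet, G.unbalancedVertices = S ∧ N < G.balancedVertices.card

/-- The set of `n`-tuples of distinct points of the plane which form an unboundedly fillable set. -/
def FillableTuples (n : ℕ) : Set (Fin n → ℂ) :=
  {p | Function.Injective p ∧ UnboundedlyFillable (Finset.univ.image p)}

open Pool.Agent.Helper544.Planar Pool.Agent.H950R3

theorem fillable (A : Par) : bpos A ∈ FillableTuples 8 := by
  have hmain : ∀ M : ℕ, Function.Injective (bpos A) ∧
      ∃ G : GeodesicNet, G.unbalancedVertices = Finset.univ.image (bpos A) ∧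
        M < G.balancedVertices.card := by
    intro M
    obtain ⟨Z, hZ⟩ := Par.exists_isChain A (2 * M + 3)
    have hN : 2 ≤ 2 * M + 3 := by omega
    have hpsi := posf_psi hZ (by omega)
    let D := drawing hZ hN
    have hD : D.pos = posf A Z := rfl
    have hDW : D.W = Wf := rfl
    have hW : ∀ x y, D.W x y ≤ 1 := Wf_le
    have hm : ∀ a b, D.m a b ≠ 0 → D.m a b = 1 := by
      intro a b h
      have := D.m_le hW a b
      omega
    let G : GeodesicNet :=
      { V := D.V
        Adj := fun a b => D.m a b ≠ 0
        symm := fun a b h => by rw [D.m_symm]; exact h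
        edge_ends := fun a b h => D.edge_mem h
        edges_meet := by
          intro a b c d hab hcd hne z hz hz'
          refine D.planar hab hcd ?_ hz hz'
          rintro (⟨h1, h2⟩ | ⟨h1, h2⟩)
          · exact hne (by rw [h1, h2])
          · exact hne (by rw [h1, h2]; exact Sym2.eq_swap)
        no_vertex_inside := fun a b h c hc => D.no_interior h hc }
    have himb : ∀ v, G.imb v = ∑ w ∈ D.V, (D.m v w : ℂ) * uv v w := by
      intro v
      unfold GeodesicNet.imb GeodesicNet.neighbors
      rw [Finset.sum_filter]
      refine Finset.sum_congr rfl fun w _ => ?_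
      by_cases h : D.m v w ≠ 0
      · rw [if_pos (show G.Adj v w from h), hm v w h]; simp [uv]
      · rw [if_neg (show ¬ G.Adj v w from h)]
        push Not at h
        rw [h]; simp
    have hdeg : ∀ v, (G.neighbors v).card = (D.V.filter (fun w => D.m v w ≠ 0)).card := by
      intro v
      refine congrArg Finset.card ?_
      ext w
      simp only [GeodesicNet.neighbors, Finset.mem_filter]
      exact Iff.rfl
    have hball : ∀ k : Fin (2 * M + 3 + 2), 1 ≤ k.val → k.val ≤ 2 * M + 3 →
        G.IsBalanced (D.pos (Sum.inl k)) := by
      intro k h1 h2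
      constructor
      · rw [himb, D.imb_pos]
        exact sum_inner hZ h1 h2
      · rw [hdeg]
        exact le_trans (deg_inner h1 h2) (D.degree_pos _)
    have hcross : ∀ v ∈ D.V, v ∉ Set.range D.pos → G.IsBalanced v := by
      intro v hv hv'
      constructor
      · rw [himb]; exact D.imb_cross hv hv'
      · rw [hdeg]; exact le_trans (by norm_num) (D.degree_cross hv hv')
    have hunb : ∀ i, ¬ G.IsBalanced (D.pos (psi _ i)) := by
      intro i h
      have h1 := h.1
      rw [himb, D.imb_pos] at h1
      exact sum_psi hZ hN i h1
    refine ⟨?_, G, ?_, ?_⟩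
    · intro i j h
      rw [← hpsi i, ← hpsi j] at h
      exact psi_inj _ (posf_inj hZ hN h)
    · ext v
      simp only [GeodesicNet.unbalancedVertices, Finset.mem_filter, Finset.mem_image,
        Finset.mem_univ, true_and]
      constructor
      · rintro ⟨hv, hnb⟩
        by_cases hvr : v ∈ Set.range D.pos
        · obtain ⟨x, rfl⟩ := hvr
          rcases mem_psi x with ⟨i, rfl⟩ | ⟨k, rfl, h1, h2⟩
          · exact ⟨i, (hpsi i).symm⟩
          · exact absurd (hball k h1 h2) hnb
        · exact absurd (hcross v hv hvr) hnb
      · rintro ⟨i, rfl⟩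
        rw [← hpsi i]
        exact ⟨D.pos_mem (psi _ i), hunb i⟩
    · have hsub : (Finset.univ : Finset (Fin (M + 1))).image
          (fun i => D.pos (Sum.inl (⟨i.val + 1, by omega⟩ : Fin (2 * M + 3 + 2)))) ⊆ G.balancedVertices := by
        intro v hv
        simp only [Finset.mem_image, Finset.mem_univ, true_and] at hv
        obtain ⟨i, rfl⟩ := hv
        simp only [GeodesicNet.balancedVertices, Finset.mem_filter]
        refine ⟨D.pos_mem _, hball _ ?_ ?_⟩
        · simp only; omega
        · simp only; omega
      have hc := Finset.card_le_card hsub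
      rw [Finset.card_image_of_injective] at hc
      · simp at hc
        omega
      · intro i i' h
        have h1 := D.inj h
        have h2 := congrArg Fin.val (Sum.inl.inj h1)
        simp only at h2
        exact Fin.ext (by omega)
  exact ⟨(hmain 0).1, fun M => (hmain M).2⟩

/-- The set of `8`-tuples of distinct points of the plane which form an unboundedly fillable set
contains a nonempty open subset of `(ℝ²)⁸`, and hence has positive Lebesgue measure. -/
theorem result : (∃ O : Set (Fin 8 → ℂ), IsOpen O ∧ O.Nonempty ∧ O ⊆ FillableTuples 8) ∧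
    0 < MeasureTheory.volume (FillableTuples 8) := by
  have hex : ∃ O : Set (Fin 8 → ℂ), IsOpen O ∧ O.Nonempty ∧ O ⊆ FillableTuples 8 := by
    refine ⟨{p | ∀ i, ‖p i - bpos A0 i‖ < 1 / 1000}, ?_, ⟨bpos A0, fun i => by simp⟩, ?_⟩
    · have : {p : Fin 8 → ℂ | ∀ i, ‖p i - bpos A0 i‖ < 1 / 1000} =
          ⋂ i, {p : Fin 8 → ℂ | ‖p i - bpos A0 i‖ < 1 / 1000} := by
        ext p; simp
      rw [this]
      exact isOpen_iInter_of_finite fun i => isOpen_lt (by fun_prop) continuous_const
    · intro p hp
      obtain ⟨A, rfl⟩ := exists_par hp
      exact fillable A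
  refine ⟨hex, ?_⟩
  obtain ⟨O, hO, hne, hsub⟩ := hex
  exact (hO.measure_pos MeasureTheory.volume hne).trans_le (MeasureTheory.measure_mono hsub)

end Pool.Agent.Results.MP_1ce9e9_gt.OpenSet
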